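import Mathlib
import Pool.Agent.H387R3.ZT.Stmts2
import Pool.Agent.H525R3.FFp.Count

set_option autoImplicit false
set_option linter.all false

open Module FF

/-! Exact number of effective divisors of large degree (task ZT-Exact). -/

namespace Pool.Agent.H455R3.ZT

open Pool.Agent.H525R3.FFp

section gen

variable {k F : Type} [Field k] [Finite k] [Field F] [Algebra k F] [FF.IsFF k F]

theorem divisor_one : divisor k (1 : F) = 0 := by
  have h := divisor_mul (k := k) (one_ne_zero : (1 : F) ≠ 0) (one_ne_zero : (1 : F) ≠ 0)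
  rw [mul_one] at h
  simpa using h

theorem divisor_smul {a : k} (ha : a ≠ 0) (f : F) : divisor k (a • f) = divisor k f := by
  by_cases hf : f = 0
  · rw [hf, smul_zero]
  ext P
  rw [divisor_apply, divisor_apply, Algebra.smul_def, P.ord_mul (by simpa using ha) hf,
    P.ord_const ha, zero_add]

/-- functions without zeros and poles are algebraic over the constants -/
theorem isAlgebraic_of_divisor {f : F} (hf0 : f ≠ 0) (hf : divisor k f = 0) : IsAlgebraic k f := by
  have hpow : ∀ n : ℕ, divisor k (f ^ n) = 0 := by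
    intro n
    induction n with
    | zero => rw [pow_zero, divisor_one]
    | succ n ih => rw [pow_succ, divisor_mul (pow_ne_zero n hf0) hf0, ih, hf, add_zero]
  have hmem : ∀ n : ℕ, f ^ n ∈ LL (0 : Place k F →₀ ℤ) := by
    intro n
    rw [mem_LL' (pow_ne_zero n hf0), hpow n, add_zero]
  have hfin : Finite (LL (0 : Place k F →₀ ℤ)) := Module.finite_of_finite k
  obtain ⟨a, b, hab, h⟩ := Finite.exists_ne_map_eq_of_infinite
    (fun n : ℕ => (⟨f ^ n, hmem n⟩ : LL (0 : Place k F →₀ ℤ)))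
  have h2 : f ^ a = f ^ b := congrArg Subtype.val h
  refine ⟨Polynomial.X ^ a - Polynomial.X ^ b, ?_, ?_⟩
  · intro h0
    have h3 := congrArg (fun p : Polynomial k => p.coeff a) h0
    simp [Polynomial.coeff_X_pow, hab] at h3
  · simp [h2]

theorem ddeg_nd (D : Place k F →₀ ℕ) :
    ddeg (nd D) = ((D.sum fun v n => n * v.deg : ℕ) : ℤ) := by
  unfold ddeg nd
  rw [Finsupp.mapRange.addMonoidHom_apply, Finsupp.sum_mapRange_index (by intro; simp)]
  simp [Finsupp.sum]

theorem nd_injective : Function.Injective (nd : (Place k F →₀ ℕ) →+ (Place k F →₀ ℤ)) := by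
  intro D E h
  ext P
  have h1 := DFunLike.congr_fun h P
  simpa [nd] using h1

/-- representatives of the divisor classes of degree zero -/
theorem exists_reps (k F : Type) [Field k] [Finite k] [Field F] [Algebra k F] [FF.IsFF k F] :
    ∃ (Cl : Type) (R : Cl → (Place k F →₀ ℤ)), (∀ c, ddeg (R c) = 0) ∧
      (∀ E : Place k F →₀ ℤ, ddeg E = 0 → ∃ (c : Cl) (f : F), f ≠ 0 ∧ E = R c + divisor k f) ∧
      (∀ (c c' : Cl) (f f' : F), f ≠ 0 → f' ≠ 0 →
        R c + divisor k f = R c' + divisor k f' → c = c') := by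
  let s : Setoid {D : Place k F →₀ ℤ // ddeg D = 0} :=
    { r := fun D E => ∃ f : F, f ≠ 0 ∧ E.1 = D.1 + divisor k f
      iseqv :=
        { refl := fun D => ⟨1, one_ne_zero, by rw [divisor_one, add_zero]⟩
          symm := fun {D E} ⟨f, hf, h⟩ => ⟨f⁻¹, inv_ne_zero hf, by
            rw [divisor_inv, h]; abel⟩
          trans := fun {D E G} ⟨f, hf, h⟩ ⟨g, hg, h'⟩ => ⟨f * g, mul_ne_zero hf hg, by
            rw [divisor_mul hf hg, h', h]; abel⟩ } }
  refine ⟨Quotient s, fun c => (Quotient.out c).1, fun c => (Quotient.out c).2, ?_, ?_⟩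
  · intro E hE
    have h1 : s.r (Quotient.out (Quotient.mk s ⟨E, hE⟩)) ⟨E, hE⟩ := Quotient.mk_out (s := s) ⟨E, hE⟩
    obtain ⟨f, hf, h⟩ := h1
    exact ⟨Quotient.mk s ⟨E, hE⟩, f, hf, h⟩
  · intro c c' f f' hf hf' h
    rw [← Quotient.out_eq c, ← Quotient.out_eq c']
    apply Quotient.sound
    refine ⟨f * f'⁻¹, mul_ne_zero hf (inv_ne_zero hf'), ?_⟩
    rw [divisor_mul hf (inv_ne_zero hf'), divisor_inv]
    have h2 : (Quotient.out c').1 = (Quotient.out c).1 + divisor k f - divisor k f' := by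
      rw [h]; abel
    rw [h2]; abel

/-- a divisor of degree one -/
theorem exists_ddeg_one (hd : ∀ d : ℕ, (∀ v : FF.Place k F, d ∣ v.deg) → d = 1) :
    ∃ D : Place k F →₀ ℤ, ddeg D = 1 := by
  let φ : (Place k F →₀ ℤ) →+ ℤ :=
    { toFun := ddeg
      map_zero' := ddeg_zero
      map_add' := ddeg_add }
  obtain ⟨a, ha⟩ := Int.subgroup_cyclic φ.range
  have h1 : a.natAbs = 1 := by
    apply hd
    intro v
    have h2 : (v.deg : ℤ) ∈ φ.range := ⟨Finsupp.single v 1, by
      show ddeg (Finsupp.single v 1) = _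
      rw [ddeg_single, one_mul]⟩
    rw [ha, AddSubgroup.mem_closure_singleton] at h2
    obtain ⟨n, hn⟩ := h2
    have h3 : a ∣ (v.deg : ℤ) := ⟨n, by rw [← hn, smul_eq_mul, mul_comm]⟩
    exact Int.natAbs_dvd_natAbs.mpr h3 |>.trans (by simp)
  have h4 : (1 : ℤ) ∈ φ.range := by
    rw [ha, AddSubgroup.mem_closure_singleton]
    rcases Int.natAbs_eq a with h | h
    · refine ⟨1, ?_⟩; rw [h, h1]; simp
    · refine ⟨-1, ?_⟩; rw [h, h1]; simp
  obtain ⟨D, hD⟩ := h4
  exact ⟨D, hD⟩

theorem card_LL_ne {D : Place k F →₀ ℤ} {n : ℕ} (h : finrank k (LL D) = n) :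
    Nat.card {f : LL D // f ≠ 0} = Nat.card k ^ n - 1 := by
  have hfin : Finite (LL D) := Module.finite_of_finite k
  have h2 : Nat.card (LL D) = Nat.card k ^ finrank k (LL D) := Module.natCard_eq_pow_finrank
  have h3 : Nat.card {f : LL D // f ≠ 0} = Nat.card (LL D) - 1 := by
    have : Fintype (LL D) := Fintype.ofFinite _
    classical
    rw [Nat.card_eq_fintype_card, Nat.card_eq_fintype_card, Fintype.card_subtype_compl]
    simp
  rw [h3, h2, h]

end gen

theorem taskExact : H387R3.ZT.TaskExact := by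
  intro k F _ _ _ _ _ hconst hdeg
  classical
  obtain ⟨γ, N, hγ, hN⟩ := riemann k F
  obtain ⟨Cl, R, hR0, hRex, hRun⟩ := exists_reps k F
  obtain ⟨D1, hD1⟩ := exists_ddeg_one (k := k) (F := F) hdeg
  refine ⟨Nat.card Cl, (max N γ).toNat, γ, ?_⟩
  intro m hm
  have hmN : N ≤ (m : ℤ) := by omega
  have hmγ : γ ≤ (m : ℤ) := by omega
  refine ⟨by omega, ?_⟩
  have hdm : ∀ c, ddeg (R c + m • D1) = m := by
    intro c
    rw [ddeg_add, hR0, ddeg_nsmul, hD1]; ring
  have hX : ∀ c : Cl, Nat.card {f : LL (R c + m • D1) // f ≠ 0} =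
      Nat.card k ^ ((m : ℤ) - γ).toNat - 1 := by
    intro c
    apply card_LL_ne
    have h1 := hN (R c + m • D1) (by rw [hdm]; exact hmN)
    rw [hdm] at h1
    unfold ell at h1
    omega
  have hfinX : ∀ c : Cl, Finite {f : LL (R c + m • D1) // f ≠ 0} := by
    intro c
    have : Finite (LL (R c + m • D1)) := Module.finite_of_finite k
    infer_instance
  have e1 : ∀ c : Cl, {f : LL (R c + m • D1) // f ≠ 0} ≃
      Fin (Nat.card k ^ ((m : ℤ) - γ).toNat - 1) := fun c => Finite.equivFinOfCardEq (hX c)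
  have hcard1 : Nat.card (Σ c : Cl, {f : LL (R c + m • D1) // f ≠ 0}) =
      Nat.card Cl * (Nat.card k ^ ((m : ℤ) - γ).toNat - 1) := by
    rw [Nat.card_congr ((Equiv.sigmaCongrRight e1).trans (Equiv.sigmaEquivProd _ _)),
      Nat.card_prod, Nat.card_fin]
  -- choice of a class and a function
  have hch : ∀ E : {D : FF.Place k F →₀ ℕ // (D.sum fun v n => n * v.deg) = m},
      ∃ (c : Cl) (f : F), f ≠ 0 ∧ nd E.1 = R c + m • D1 + divisor k f := by
    intro E
    have h1 : ddeg (nd E.1 - m • D1) = 0 := by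
      rw [ddeg_sub, ddeg_nd, E.2, ddeg_nsmul, hD1]; ring
    obtain ⟨c, f, hf, h⟩ := hRex _ h1
    refine ⟨c, f, hf, ?_⟩
    rw [sub_eq_iff_eq_add] at h
    rw [h]; abel
  choose cE fE hfE0 hfE using hch
  have hmem : ∀ (E : {D : FF.Place k F →₀ ℕ // (D.sum fun v n => n * v.deg) = m}) (a : kˣ),
      (a : k) • fE E ∈ LL (R (cE E) + m • D1) := by
    intro E a
    apply Submodule.smul_mem
    rw [mem_LL' (hfE0 E)]
    have h1 := hfE E
    have h2 : divisor k (fE E) + (R (cE E) + m • D1) = nd E.1 := by rw [h1]; abel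
    rw [h2]
    intro P
    simp [nd]
  let Φ : {D : FF.Place k F →₀ ℕ // (D.sum fun v n => n * v.deg) = m} × kˣ →
      (Σ c : Cl, {f : LL (R c + m • D1) // f ≠ 0}) := fun x =>
    ⟨cE x.1, ⟨⟨(x.2 : k) • fE x.1, hmem x.1 x.2⟩, by
      intro h0
      have h1 : (x.2 : k) • fE x.1 = 0 := congrArg Subtype.val h0
      rcases smul_eq_zero.mp h1 with h | h
      · exact x.2.ne_zero h
      · exact hfE0 _ h⟩⟩
  let val : (Σ c : Cl, {f : LL (R c + m • D1) // f ≠ 0}) → Cl × F := fun y => (y.1, (y.2.1 : F))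
  have hval : Function.Injective val := by
    rintro ⟨c, f⟩ ⟨c', f'⟩ h
    obtain ⟨h1, h2⟩ := Prod.mk.inj h
    dsimp only at h1 h2
    subst h1
    have : f = f' := Subtype.ext (Subtype.ext h2)
    rw [this]
  have hΦ : Function.Bijective Φ := by
    constructor
    · rintro ⟨E, a⟩ ⟨E', a'⟩ h
      have h1 := congrArg val h
      obtain ⟨h2, h3⟩ := Prod.mk.inj h1
      dsimp only [Φ] at h2 h3
      have h4 : divisor k (fE E) = divisor k (fE E') := by
        rw [← divisor_smul a.ne_zero (fE E), h3, divisor_smul a'.ne_zero]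
      have h5 : nd E.1 = nd E'.1 := by rw [hfE E, hfE E', h2, h4]
      have h6 : E = E' := Subtype.ext (nd_injective h5)
      subst h6
      have h7 : (a : k) = a' := smul_left_injective k (hfE0 E) h3
      rw [Units.ext h7]
    · rintro ⟨c, ⟨⟨f, hf⟩, hf0⟩⟩
      have hf0' : f ≠ 0 := fun h => hf0 (Subtype.ext h)
      have h1 := (mem_LL' hf0').mp hf
      obtain ⟨D, hD⟩ := exists_nd h1
      rw [zero_add] at hD
      have hDm : (D.sum fun v n => n * v.deg) = m := by
        have h2 := ddeg_nd D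
        rw [← hD, ddeg_add, ddeg_divisor, hdm, zero_add] at h2
        exact_mod_cast h2.symm
      have h3 := hfE ⟨D, hDm⟩
      dsimp only at h3
      rw [← hD] at h3
      have h4 : R c + divisor k f = R (cE ⟨D, hDm⟩) + divisor k (fE ⟨D, hDm⟩) := by
        have h5 : (R c + divisor k f) + m • D1 = (R (cE ⟨D, hDm⟩) + divisor k (fE ⟨D, hDm⟩)) + m • D1 := by
          calc (R c + divisor k f) + m • D1 = divisor k f + (R c + m • D1) := by abel
            _ = R (cE ⟨D, hDm⟩) + m • D1 + divisor k (fE ⟨D, hDm⟩) := h3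
            _ = _ := by abel
        exact add_right_cancel h5
      have h6 : c = cE ⟨D, hDm⟩ := hRun _ _ _ _ hf0' (hfE0 _) h4
      have h7 : divisor k f = divisor k (fE ⟨D, hDm⟩) := by
        rw [← h6] at h4
        exact add_left_cancel h4
      have h8 : divisor k (f * (fE ⟨D, hDm⟩)⁻¹) = 0 := by
        rw [divisor_mul hf0' (inv_ne_zero (hfE0 _)), divisor_inv, h7]; abel
      have h9 := isAlgebraic_of_divisor (mul_ne_zero hf0' (inv_ne_zero (hfE0 ⟨D, hDm⟩))) h8
      obtain ⟨a, ha⟩ := hconst _ h9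
      have ha0 : a ≠ 0 := by
        rintro rfl
        rw [map_zero] at ha
        exact mul_ne_zero hf0' (inv_ne_zero (hfE0 ⟨D, hDm⟩)) ha.symm
      refine ⟨(⟨D, hDm⟩, Units.mk0 a ha0), ?_⟩
      apply hval
      refine Prod.ext h6.symm ?_
      show (a : k) • fE ⟨D, hDm⟩ = f
      rw [Algebra.smul_def, ha, inv_mul_cancel_right₀ (hfE0 _)]
  have hcard2 := Nat.card_congr (Equiv.ofBijective Φ hΦ)
  rw [hcard1, Nat.card_prod, Nat.card_units] at hcard2
  exact hcard2

end Pool.Agent.H455R3.ZT
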